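import Pool.Agent.MP_a43263_nt.DH.Spec
import Mathlib.Algebra.Order.Archimedean.Basic
import Mathlib.Tactic.Ring

/-! Dense insensitive sets contain subspaces. -/

set_option autoImplicit false

noncomputable section

namespace Pool.Agent.MP_a43263_nt.DH

open Finset
open scoped BigOperators

namespace InsAux

/-- a nonpositive function has a larger sum on a subset -/
theorem card_mul_E_le {Ω Ω' : Type} [Finite Ω] [Finite Ω'] [Nonempty Ω] [Nonempty Ω']
    (j : Ω' → Ω) (hj : Function.Injective j) {h : Ω → ℝ} (h0 : ∀ x, h x ≤ 0) :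
    Nat.card Ω * E h ≤ Nat.card Ω' * E (fun x => h (j x)) := by
  classical
  cases nonempty_fintype Ω
  cases nonempty_fintype Ω'
  have p : (0 : ℝ) < Nat.card Ω := Nat.cast_pos.2 Nat.card_pos
  have p' : (0 : ℝ) < Nat.card Ω' := Nat.cast_pos.2 Nat.card_pos
  rw [E_eq_div, E_eq_div, mul_div_cancel₀ _ p.ne', mul_div_cancel₀ _ p'.ne']
  rw [← sum_image (s := univ) (g := j) (f := h) (fun x _ y _ e => hj e)]
  exact sum_le_sum_of_subset_of_nonpos' (subset_univ _) fun x _ _ => h0 x

theorem dens_le_one {Ω : Type} [Finite Ω] [Nonempty Ω] (A : Ω → Prop) : dens A ≤ 1 :=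
  E_le fun _ => ind_le_one _

/-- restriction to the smaller alphabet on some subspace -/
theorem res (α : Type) [Finite α] [Nonempty α] (η : Type) [Finite η] (κ : ℝ)
    (hκ : κ * Nat.card (η → Option α) = Nat.card (η → α)) (b : ℝ) (hb : 0 < b) (t : ℕ) :
    ∃ (ι : Type) (_ : Finite ι), ∀ A : (ι → Option α) → Prop, b + (1 - κ) ^ t ≤ dens A →
      ∃ σ : ι → Option α ⊕ η, Proper σ ∧
        b ≤ dens fun x : η → α => A (sub σ fun e => some (x e)) := by
  induction t with
  | zero =>
    refine ⟨Unit, inferInstance, fun A hA => ?_⟩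
    have := dens_le_one A
    rw [pow_zero] at hA
    linarith
  | succ t ih =>
    obtain ⟨ι, _, ih⟩ := ih
    refine ⟨η ⊕ ι, inferInstance, fun A hA => ?_⟩
    by_cases c1 : b ≤ E fun x : η → α => E fun y : ι → Option α =>
        ind (A (Sum.elim (fun e => some (x e)) y))
    · rw [E_comm] at c1
      obtain ⟨y, hy⟩ := exists_ge c1
      refine ⟨Sum.elim Sum.inr fun s => Sum.inl (y s), fun e => ⟨Sum.inl e, rfl⟩, ?_⟩
      refine hy.trans_eq ?_
      unfold dens
      refine congrArg E (funext fun x => congrArg (fun z => ind (A z)) ?_)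
      funext s
      cases s <;> rfl
    · by_cases c2 : ∃ u : η → Option α,
          b + (1 - κ) ^ t ≤ dens fun y : ι → Option α => A (Sum.elim u y)
      · obtain ⟨u, hu⟩ := c2
        obtain ⟨σ, hσ, h⟩ := ih _ hu
        refine ⟨Sum.elim (fun e => Sum.inl (u e)) σ, fun e => ?_, ?_⟩
        · obtain ⟨s, hs⟩ := hσ e
          exact ⟨Sum.inr s, hs⟩
        · refine h.trans_eq ?_
          refine congrArg dens (funext fun x => congrArg A ?_)
          funext s
          cases s <;> rfl
      · exfalso
        have c3 : ∀ u : η → Option α,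
            (E fun y : ι → Option α => ind (A (Sum.elim u y))) - (b + (1 - κ) ^ t) ≤ 0 :=
          fun u => sub_nonpos.2 (not_le.1 fun k => c2 ⟨u, k⟩).le
        have inj : Function.Injective fun (x : η → α) (e : η) => some (x e) := by
          intro x y k
          funext e
          exact Option.some.inj (congrFun k e)
        have key := card_mul_E_le _ inj c3
        rw [E_sub, E_sub, E_const, E_const, ← hκ] at key
        unfold dens at hA
        rw [E_sum_idx] at hA
        have p : (0 : ℝ) < Nat.card (η → Option α) := Nat.cast_pos.2 Nat.card_pos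
        have p' : (0 : ℝ) < Nat.card (η → α) := Nat.cast_pos.2 Nat.card_pos
        have k0 : 0 < κ := by
          rw [← hκ] at p'
          exact (mul_pos_iff_of_pos_right p).1 p'
        rw [mul_comm κ, mul_assoc] at key
        have key2 := le_of_mul_le_mul_left key p
        have c4 := mul_lt_mul_of_pos_left (not_le.1 c1) k0
        rw [pow_succ] at hA
        nlinarith

end InsAux

theorem ins : MDStmt → INSStmt := by
  intro md α _ _ hα η _ β hβ
  obtain ⟨η₁, _, h₁⟩ := md α hα η (β / 2) (half_pos hβ)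
  have p : (0 : ℝ) < Nat.card (η₁ → Option α) := Nat.cast_pos.2 Nat.card_pos
  have p' : (0 : ℝ) < Nat.card (η₁ → α) := Nat.cast_pos.2 Nat.card_pos
  obtain ⟨t, ht⟩ := exists_pow_lt_of_lt_one (half_pos hβ)
    (show 1 - (Nat.card (η₁ → α) : ℝ) / Nat.card (η₁ → Option α) < 1 from
      sub_lt_self _ (div_pos p' p))
  obtain ⟨ι, _, h₂⟩ := InsAux.res α η₁ _ (div_mul_cancel₀ _ p.ne') (β / 2) (half_pos hβ) t
  refine ⟨ι, inferInstance, fun a D hD hβD => ?_⟩
  obtain ⟨σ, hσ, h₃⟩ := h₂ D (by linarith)
  obtain ⟨τ, hτ, h₄⟩ := h₁ _ h₃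
  have hτ' : Proper fun e => Sum.map some id (τ e) := fun e => by
    obtain ⟨s, hs⟩ := hτ e
    exact ⟨s, by simp only [hs]; rfl⟩
  refine ⟨comp σ fun e => Sum.map some id (τ e), hσ.comp hτ', fun x => ?_⟩
  refine (hD.sub _ x).2 ?_
  show D (sub _ _)
  rw [sub_comp]
  have e : (sub (fun e => Sum.map some id (τ e)) fun s => some (pt x a s)) =
      fun e => some (sub τ (pt x a) e) := by
    funext e
    simp only [sub]
    cases τ e <;> rfl
  rw [e]
  exact h₄ _

end Pool.Agent.MP_a43263_nt.DH
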