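import Pool.Agent.MP_a43263_nt.DH.Spec

/-! The multidimensional form of density Hales-Jewett. -/

set_option autoImplicit false

noncomputable section

namespace Pool.Agent.MP_a43263_nt.DH

open Finset
open scoped BigOperators

namespace MdAux

def P (α : Type) [Finite α] (η : Type) : Prop := ∀ δ : ℝ, 0 < δ →
  ∃ (ι : Type) (_ : Finite ι), ∀ A : (ι → α) → Prop, δ ≤ dens A →
    ∃ σ : ι → α ⊕ η, Proper σ ∧ ∀ x, A (sub σ x)

theorem exists_of_dens_pos {Ω : Type} [Finite Ω] {A : Ω → Prop} (h : 0 < dens A) : ∃ x, A x := by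
  by_contra k
  have e : (fun x => ind (A x)) = fun x => 0 * ind (A x) := by
    funext x
    rw [ind_false fun hx => k ⟨x, hx⟩, mul_zero]
  unfold dens at h
  rw [e, E_mul_left, zero_mul] at h
  exact lt_irrefl _ h

theorem of_equiv (α : Type) [Finite α] {η η' : Type} (e : η ≃ η') (h : P α η) : P α η' := by
  intro δ hδ
  obtain ⟨ι, _, h⟩ := h δ hδ
  refine ⟨ι, inferInstance, fun A hA => ?_⟩
  obtain ⟨σ, hσ, h⟩ := h A hA
  have hτ : Proper (α := α) fun s : η => Sum.inr (e s) := fun s =>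
    ⟨e.symm s, congrArg Sum.inr (e.apply_symm_apply s)⟩
  refine ⟨comp σ fun s => Sum.inr (e s), hσ.comp hτ, fun x => ?_⟩
  rw [sub_comp]
  exact h _

theorem empty (α : Type) [Finite α] : P α PEmpty := by
  intro δ hδ
  refine ⟨Unit, inferInstance, fun A hA => ?_⟩
  obtain ⟨x, hx⟩ := exists_of_dens_pos (hδ.trans_le hA)
  exact ⟨fun t => Sum.inl (x t), fun e => e.elim, fun _ => hx⟩

theorem step (α : Type) [Finite α] (hα : DHJ α) {η : Type} (h : P α η) : P α (Option η) := by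
  intro δ hδ
  obtain ⟨ι₁, _, h₁⟩ := hα (δ / 2) (half_pos hδ)
  have p : (0 : ℝ) < Nat.card (ι₁ → Option α) := Nat.cast_pos.2 Nat.card_pos
  obtain ⟨ι₂, _, h₂⟩ := h (δ / 2 / Nat.card (ι₁ → Option α)) (div_pos (half_pos hδ) p)
  refine ⟨ι₁ ⊕ ι₂, inferInstance, fun A hA => ?_⟩
  obtain ⟨z, -⟩ := exists_of_dens_pos (hδ.trans_le hA)
  have : Nonempty (ι₂ → α) := ⟨fun s => z (Sum.inr s)⟩
  unfold dens at hA
  rw [E_sum_idx, E_comm] at hA
  have : Nonempty (ι₁ → α) := ⟨fun s => z (Sum.inl s)⟩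
  have h₃ := markov hδ.le (fun y => E_le fun x => ind_le_one _) hA
  obtain ⟨w, hw⟩ := pigeon
    (A := fun y : ι₂ → α => δ / 2 ≤ E fun x : ι₁ → α => ind (A (Sum.elim x y)))
    (B := fun (w : ι₁ → Option α) (y : ι₂ → α) =>
      (∃ t, w t = none) ∧ ∀ a, A (Sum.elim (pt w a) y))
    (fun y hy => h₁ (fun x => A (Sum.elim x y)) hy)
  have h₄ := (div_le_div_of_nonneg_right h₃ p.le).trans hw
  obtain ⟨σ, hσ, h₅⟩ := h₂ _ h₄
  obtain ⟨y, ⟨t, ht⟩, -⟩ := exists_of_dens_pos ((div_pos (half_pos hδ) p).trans_le h₄)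
  refine ⟨Sum.elim (fun s => (w s).elim (Sum.inr none) Sum.inl)
    (fun s => Sum.map id some (σ s)), fun e => ?_, fun x => ?_⟩
  · cases e with
    | none => exact ⟨Sum.inl t, by simp only [Sum.elim_inl, ht]; rfl⟩
    | some e =>
      obtain ⟨s, hs⟩ := hσ e
      exact ⟨Sum.inr s, by simp only [Sum.elim_inr, hs]; rfl⟩
  · refine (congrArg A ?_).mp ((h₅ fun e => x (some e)).2 (x none))
    funext s
    cases s with
    | inl s =>
      simp only [sub, pt, Sum.elim_inl]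
      cases w s <;> rfl
    | inr s =>
      simp only [sub, Sum.elim_inr]
      cases σ s <;> rfl

end MdAux

theorem md : MDStmt := by
  intro α _ hα η _
  refine Finite.induction_empty_option (P := fun η => MdAux.P α η) ?_ (MdAux.empty α) ?_ η
  · intro _ _ e h
    exact MdAux.of_equiv α e h
  · intro _ _ h
    exact MdAux.step α hα h

end Pool.Agent.MP_a43263_nt.DH
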