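import Mathlib.Algebra.Order.BigOperators.Expect
import Mathlib.Data.Real.Basic
import Mathlib.Algebra.BigOperators.Field
import Mathlib.Data.Fintype.Option
import Mathlib.Data.Finite.Sum
import Mathlib.Data.Finite.Prod
import Mathlib.SetTheory.Cardinal.Finite
import Mathlib.Order.Interval.Finset.Nat
import Mathlib.Tactic.Positivity
import Mathlib.Tactic.Linarith
import Mathlib.Tactic.FieldSimp
import Mathlib.Algebra.Order.Archimedean.Real.Basic

/-! Density Hales-Jewett: definitions, averages, statements of the modules.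
Blueprint: `/team-store/GEN_DHJ_BLUEPRINT.md`. -/

set_option autoImplicit false

noncomputable section

namespace Pool.Agent.MP_a43263_nt.DH

open Finset
open scoped BigOperators

/-- the mean of a function on a finite type -/
def E {Ω : Type} [Finite Ω] (f : Ω → ℝ) : ℝ :=
  letI := Fintype.ofFinite Ω
  𝔼 x, f x

open Classical in
def ind (p : Prop) : ℝ := if p then 1 else 0

def dens {Ω : Type} [Finite Ω] (A : Ω → Prop) : ℝ := E fun x => ind (A x)

/-- the point of the line `w` at the letter `a` -/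
def pt {ι α : Type} (w : ι → Option α) (a : α) : ι → α := fun t => (w t).getD a

def HasLine {ι α : Type} (A : (ι → α) → Prop) : Prop :=
  ∃ w : ι → Option α, (∃ t, w t = none) ∧ ∀ a, A (pt w a)

/-- the point of the subspace `σ` with coordinates `x` -/
def sub {ι α η : Type} (σ : ι → α ⊕ η) (x : η → α) : ι → α := fun t => Sum.elim id x (σ t)

def Proper {ι α η : Type} (σ : ι → α ⊕ η) : Prop := ∀ e, ∃ t, σ t = Sum.inr e

/-- the set does not distinguish the letters `some a` and `none` -/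
def Ins {ι α : Type} (a : α) (D : (ι → Option α) → Prop) : Prop :=
  ∀ x, D x ↔ D (fun t => some (pt x a t))

/-- the density Hales-Jewett theorem for the alphabet `α` -/
def DHJ (α : Type) [Finite α] : Prop := ∀ δ : ℝ, 0 < δ → ∃ (ι : Type) (_ : Finite ι),
  ∀ A : (ι → α) → Prop, δ ≤ dens A → HasLine A

/-- the multidimensional form -/
def MDStmt : Prop := ∀ (α : Type) [Finite α], DHJ α → ∀ (η : Type) [Finite η] (δ : ℝ), 0 < δ →
  ∃ (ι : Type) (_ : Finite ι), ∀ A : (ι → α) → Prop, δ ≤ dens A →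
    ∃ σ : ι → α ⊕ η, Proper σ ∧ ∀ x, A (sub σ x)

/-- dense insensitive sets contain subspaces -/
def INSStmt : Prop := ∀ (α : Type) [Finite α] [Nonempty α], DHJ α →
  ∀ (η : Type) [Finite η] (β : ℝ), 0 < β → ∃ (ι : Type) (_ : Finite ι),
    ∀ (a : α) (D : (ι → Option α) → Prop), Ins a D → β ≤ dens D →
      ∃ σ : ι → Option α ⊕ η, Proper σ ∧ ∀ x, D (sub σ x)

/-- tiling of one insensitive set, in dual form -/
def TIL1Stmt : Prop := ∀ (α : Type) [Finite α] [Nonempty α], DHJ α →
  ∀ (η : Type) [Finite η] (β : ℝ), 0 < β → ∃ (ι : Type) (_ : Finite ι),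
    ∀ (a : α) (D : (ι → Option α) → Prop) (f : (ι → Option α) → ℝ), Ins a D → (∀ x, f x ≤ 1) →
      (∀ σ : ι → Option α ⊕ η, Proper σ → E (fun x => f (sub σ x)) ≤ 0) →
      E (fun x => f x * ind (D x)) ≤ β

/-- tiling of an intersection of insensitive sets, in dual form -/
def TILStmt : Prop := ∀ (α : Type) [Finite α] [Nonempty α], DHJ α →
  ∀ (η : Type) [Finite η] (β : ℝ), 0 < β → ∃ (ι : Type) (_ : Finite ι),
    ∀ (D : α → (ι → Option α) → Prop) (f : (ι → Option α) → ℝ), (∀ a, Ins a (D a)) →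
      (∀ x, f x ≤ 1) →
      (∀ σ : ι → Option α ⊕ η, Proper σ → E (fun x => f (sub σ x)) ≤ 0) →
      E (fun x => f x * ind (∀ a, D a x)) ≤ β

/-- one more letter -/
def STPStmt : Prop := ∀ (α : Type) [Finite α] [Nonempty α], DHJ α → DHJ (Option α)

def ALLStmt : Prop := ∀ (α : Type) [Finite α], DHJ α

open Classical in
/-- the counting form of Szemeredi's theorem for a given pattern -/
def SZStmt : Prop := ∀ (α : Type) [Finite α] (e : α → ℕ) (δ : ℝ), 0 < δ → ∃ c : ℝ, 0 < c ∧
  ∃ N₀ : ℕ, ∀ N : ℕ, N₀ ≤ N → ∀ A : ℕ → Prop, δ * N ≤ (((range N).filter A).card : ℝ) →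
    c * (N : ℝ) ^ 2 ≤
      (((range N ×ˢ Icc 1 N).filter fun x => ∀ a, A (x.1 + e a * x.2)).card : ℝ)

theorem sz_of (md : MDStmt) (ins : MDStmt → INSStmt) (til1 : INSStmt → TIL1Stmt)
    (til : TIL1Stmt → TILStmt) (stp : TILStmt → STPStmt) (all : STPStmt → ALLStmt)
    (sz : ALLStmt → SZStmt) : SZStmt :=
  sz (all (stp (til (til1 (ins md)))))

/-! ### averages -/

section
variable {Ω Ω' : Type} [Finite Ω] [Finite Ω']

theorem E_eq [i : Fintype Ω] (f : Ω → ℝ) : E f = 𝔼 x, f x := by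
  obtain rfl : i = Fintype.ofFinite Ω := Subsingleton.elim _ _
  rfl

theorem E_eq_div [Fintype Ω] (f : Ω → ℝ) : E f = (∑ x, f x) / Nat.card Ω := by
  rw [E_eq, Fintype.expect_eq_sum_div_card, Nat.card_eq_fintype_card]

theorem E_const [Nonempty Ω] (c : ℝ) : E (fun _ : Ω => c) = c := by
  cases nonempty_fintype Ω
  rw [E_eq, Fintype.expect_const]

theorem E_add (f g : Ω → ℝ) : E (fun x => f x + g x) = E f + E g := by
  cases nonempty_fintype Ω
  simp only [E_eq, expect_add_distrib]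

theorem E_sub (f g : Ω → ℝ) : E (fun x => f x - g x) = E f - E g := by
  cases nonempty_fintype Ω
  simp only [E_eq, expect_sub_distrib]

theorem E_mul_left (c : ℝ) (f : Ω → ℝ) : E (fun x => c * f x) = c * E f := by
  cases nonempty_fintype Ω
  simp only [E_eq, mul_expect]

theorem E_sum {κ : Type} (s : Finset κ) (f : κ → Ω → ℝ) :
    E (fun x => ∑ k ∈ s, f k x) = ∑ k ∈ s, E (f k) := by
  cases nonempty_fintype Ω
  simp only [E_eq_div, ← sum_div]
  rw [sum_comm]

theorem E_mono {f g : Ω → ℝ} (h : ∀ x, f x ≤ g x) : E f ≤ E g := by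
  cases nonempty_fintype Ω
  simp only [E_eq]
  exact expect_le_expect fun x _ => h x

theorem E_nonneg {f : Ω → ℝ} (h : ∀ x, 0 ≤ f x) : 0 ≤ E f := by
  cases nonempty_fintype Ω
  simp only [E_eq]
  exact expect_nonneg fun x _ => h x

theorem E_le [Nonempty Ω] {f : Ω → ℝ} {c : ℝ} (h : ∀ x, f x ≤ c) : E f ≤ c :=
  (E_mono h).trans_eq (E_const c)

theorem le_E [Nonempty Ω] {f : Ω → ℝ} {c : ℝ} (h : ∀ x, c ≤ f x) : c ≤ E f :=
  (E_const c).symm.trans_le (E_mono h)

theorem exists_ge [Nonempty Ω] {f : Ω → ℝ} {c : ℝ} (h : c ≤ E f) : ∃ x, c ≤ f x := by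
  cases nonempty_fintype Ω
  rw [E_eq] at h
  obtain ⟨x, -, hx⟩ := exists_le_of_le_expect univ_nonempty h
  exact ⟨x, hx⟩

theorem E_equiv (e : Ω ≃ Ω') (f : Ω' → ℝ) : E (fun x => f (e x)) = E f := by
  cases nonempty_fintype Ω
  cases nonempty_fintype Ω'
  simp only [E_eq]
  exact Fintype.expect_equiv e _ _ fun _ => rfl

theorem E_prod (f : Ω × Ω' → ℝ) : E f = E fun x => E fun y => f (x, y) := by
  cases nonempty_fintype Ω
  cases nonempty_fintype Ω'
  simp only [E_eq]
  rw [← univ_product_univ, expect_product]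

theorem E_comm (f : Ω → Ω' → ℝ) :
    E (fun x => E fun y => f x y) = E fun y => E fun x => f x y := by
  cases nonempty_fintype Ω
  cases nonempty_fintype Ω'
  simp only [E_eq]
  exact expect_comm _ _ _

/-- one point weighs at most the whole -/
theorem le_card_mul_E {f : Ω → ℝ} (h : ∀ x, 0 ≤ f x) (x : Ω) : f x ≤ Nat.card Ω * E f := by
  cases nonempty_fintype Ω
  have : Nonempty Ω := ⟨x⟩
  have h0 : (0 : ℝ) < Nat.card Ω := Nat.cast_pos.2 Nat.card_pos
  rw [E_eq_div, mul_div_cancel₀ _ h0.ne']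
  exact single_le_sum (fun y _ => h y) (mem_univ x)

/-- words on a disjoint union of index sets -/
theorem E_sum_idx {ι κ α : Type} [Finite ι] [Finite κ] [Finite α] (f : (ι ⊕ κ → α) → ℝ) :
    E f = E fun x : ι → α => E fun y : κ → α => f (Sum.elim x y) := by
  rw [← E_equiv (Equiv.sumArrowEquivProdArrow ι κ α).symm, E_prod]
  rfl

end

theorem ind_true {p : Prop} (h : p) : ind p = 1 := if_pos h

theorem ind_false {p : Prop} (h : ¬p) : ind p = 0 := if_neg h

theorem ind_nonneg (p : Prop) : 0 ≤ ind p := by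
  unfold ind; split_ifs <;> norm_num

theorem ind_le_one (p : Prop) : ind p ≤ 1 := by
  unfold ind; split_ifs <;> norm_num

theorem ind_mono {p q : Prop} (h : p → q) : ind p ≤ ind q := by
  by_cases hp : p
  · rw [ind_true hp, ind_true (h hp)]
  · rw [ind_false hp]; exact ind_nonneg q

theorem ind_not (p : Prop) : ind (¬p) = 1 - ind p := by
  by_cases hp : p
  · rw [ind_true hp, ind_false (not_not.2 hp), sub_self]
  · rw [ind_true hp, ind_false hp, sub_zero]

/-- many fibres are dense -/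
theorem markov {Ω : Type} [Finite Ω] [Nonempty Ω] {f : Ω → ℝ} {δ : ℝ} (hδ : 0 ≤ δ)
    (h1 : ∀ x, f x ≤ 1) (h : δ ≤ E f) : δ / 2 ≤ dens fun x => δ / 2 ≤ f x := by
  have : E f ≤ E fun x => δ / 2 + ind (δ / 2 ≤ f x) := E_mono fun x => by
    by_cases k : δ / 2 ≤ f x
    · rw [ind_true k]; linarith [h1 x]
    · rw [ind_false k]; linarith [not_le.1 k]
  rw [E_add, E_const] at this
  unfold dens
  linarith

/-- pigeonhole for densities -/
theorem pigeon {Ω κ : Type} [Finite Ω] [Finite κ] [Nonempty κ] {A : Ω → Prop} {B : κ → Ω → Prop}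
    (h : ∀ x, A x → ∃ k, B k x) : ∃ k, dens A / Nat.card κ ≤ dens (B k) := by
  cases nonempty_fintype κ
  refine exists_ge (f := fun k => dens (B k)) ?_
  rw [E_eq_div]
  refine div_le_div_of_nonneg_right ?_ (Nat.cast_nonneg _)
  unfold dens
  rw [← E_sum]
  refine E_mono fun x => ?_
  by_cases k : A x
  · obtain ⟨j, hj⟩ := h x k
    rw [ind_true k, ← ind_true hj]
    exact single_le_sum (f := fun j => ind (B j x)) (fun _ _ => ind_nonneg _) (mem_univ j)
  · rw [ind_false k]
    exact sum_nonneg fun _ _ => ind_nonneg _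

/-! ### subspaces -/

/-- composition of subspaces -/
def comp {ι α η κ : Type} (σ : ι → α ⊕ η) (τ : η → α ⊕ κ) : ι → α ⊕ κ :=
  fun t => Sum.elim Sum.inl τ (σ t)

theorem sub_comp {ι α η κ : Type} (σ : ι → α ⊕ η) (τ : η → α ⊕ κ) (x : κ → α) :
    sub (comp σ τ) x = sub σ (sub τ x) := by
  funext t
  unfold sub comp
  cases σ t <;> rfl

theorem Proper.comp {ι α η κ : Type} {σ : ι → α ⊕ η} {τ : η → α ⊕ κ} (h : Proper σ)
    (h' : Proper τ) : Proper (comp σ τ) := by
  intro e
  obtain ⟨s, hs⟩ := h' e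
  obtain ⟨t, ht⟩ := h s
  exact ⟨t, by unfold DH.comp; rw [ht]; exact hs⟩

theorem Proper.injective {ι α η : Type} {σ : ι → α ⊕ η} (h : Proper σ) :
    Function.Injective (sub σ) := by
  intro x y e
  funext s
  obtain ⟨t, ht⟩ := h s
  have := congrFun e t
  unfold sub at this
  rwa [ht] at this

/-- a line of a subspace is a line -/
theorem Proper.hasLine {ι α η : Type} {σ : ι → α ⊕ η} (h : Proper σ) {A : (ι → α) → Prop}
    (hA : HasLine fun x => A (sub σ x)) : HasLine A := by
  obtain ⟨w, ⟨s, hs⟩, hw⟩ := hA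
  obtain ⟨t, ht⟩ := h s
  refine ⟨fun t => Sum.elim some w (σ t), ⟨t, by simp only [ht]; exact hs⟩, fun a => ?_⟩
  convert hw a using 1
  funext t
  simp only [pt, sub]
  cases σ t <;> rfl

/-- insensitivity passes to subspaces -/
theorem Ins.sub {ι α η : Type} {a : α} {D : (ι → Option α) → Prop} (h : Ins a D)
    (σ : ι → Option α ⊕ η) : Ins a fun x => D (sub σ x) := by
  intro x
  refine (h (DH.sub σ x)).trans (Iff.trans (iff_of_eq (congrArg D ?_))
    (h (DH.sub σ fun t => some (pt x a t))).symm)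
  funext t
  simp only [pt, DH.sub]
  cases σ t <;> rfl

end Pool.Agent.MP_a43263_nt.DH
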