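import Pool.Agent.MP_a43263_nt.DH.Spec
import Mathlib.Algebra.BigOperators.Fin
import Mathlib.Algebra.BigOperators.Ring.Finset
import Mathlib.Analysis.SpecificLimits.Basic

/-! Density Hales-Jewett: one more letter. -/

set_option autoImplicit false

noncomputable section

namespace Pool.Agent.MP_a43263_nt.DH

open Finset
open scoped BigOperators

namespace Stp

theorem dens_le_one {Ω : Type} [Finite Ω] [Nonempty Ω] (A : Ω → Prop) : dens A ≤ 1 :=
  E_le fun _ => ind_le_one _

theorem fibre_free {ι κ α : Type} {A : (ι ⊕ κ → α) → Prop} (h : ¬HasLine A) (u : ι → α) :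
    ¬HasLine fun y : κ → α => A (Sum.elim u y) := by
  intro hl
  apply h
  have hp : Proper (Sum.elim (fun t => Sum.inl (u t)) Sum.inr : ι ⊕ κ → α ⊕ κ) :=
    fun e => ⟨Sum.inr e, rfl⟩
  refine hp.hasLine ?_
  convert hl using 3 with y
  funext t
  cases t <;> rfl

theorem resample {ι β : Type} [Finite ι] [Finite β] [Nonempty β] [DecidableEq ι] (c : ι)
    (G : (ι → β) → ℝ) : E G = E fun x => E fun w => G (Function.update x c w) := by
  let s : (ι → β) × β → (ι → β) × β := fun p => (Function.update p.1 c p.2, p.1 c)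
  have hs : Function.Involutive s := fun p => by
    simp only [s, Function.update_idem, Function.update_eq_self, Function.update_self]
  have h1 := E_equiv hs.toPerm fun p => G p.1
  rw [E_prod, E_prod] at h1
  simp only [E_const] at h1
  exact h1.symm

theorem nonone (α : Type) [Finite α] {ε : ℝ} (hε : 0 < ε) :
    ∃ r : ℕ, dens (fun x : Fin r → Option α => ∀ j, x j ≠ none) ≤ ε := by
  classical
  cases nonempty_fintype α
  have hk : (0 : ℝ) < (Fintype.card α : ℝ) + 1 := by positivity
  obtain ⟨r, hr⟩ := exists_pow_lt_of_lt_one hε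
    (y := (Fintype.card α : ℝ) / ((Fintype.card α : ℝ) + 1)) (by rw [div_lt_one hk]; linarith)
  refine ⟨r, le_trans (le_of_eq ?_) hr.le⟩
  unfold dens
  rw [E_eq_div]
  have h1 : ∀ x : Fin r → Option α, ind (∀ j, x j ≠ none) = ∏ j, ind (x j ≠ none) := by
    intro x
    by_cases h : ∀ j, x j ≠ none
    · rw [ind_true h, prod_eq_one fun j _ => ind_true (h j)]
    · rw [ind_false h]
      obtain ⟨j, hj⟩ := not_forall.1 h
      exact (prod_eq_zero (mem_univ j) (ind_false hj)).symm
  have h2 : ∑ a : Option α, ind (a ≠ none) = Fintype.card α := by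
    rw [Fintype.sum_option, ind_false (not_not.2 rfl), zero_add,
      sum_congr rfl fun a _ => ind_true (Option.some_ne_none a)]
    simp
  simp only [h1]
  rw [← Fintype.sum_pow (fun a : Option α => ind (a ≠ none)), h2, div_pow]
  simp

theorem key {α : Type} [Finite α] [Nonempty α] (til : TILStmt) (h : DHJ α) {D e : ℝ}
    (hD : 0 ≤ D) (he : 0 < e) (d : Type) [Finite d]
    (hd : ∀ A : (d → Option α) → Prop, ¬HasLine A → dens A ≤ D) :
    ∃ (η : Type) (_ : Finite η), ∀ (A : (η → Option α) → Prop)
      (C : α → (η → Option α) → Prop), ¬HasLine A → (∀ a, Ins a (C a)) →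
      (∀ w, A w → (∀ a, C a w) → ∀ j, w j ≠ none) →
      dens A ≤ D * (1 - dens fun w => ∀ a, C a w) + 3 * e := by
  classical
  obtain ⟨r, hr⟩ := nonone α he
  cases nonempty_fintype (α → Prop)
  have hK : (1 : ℝ) ≤ Fintype.card (α → Prop) := Nat.one_le_cast.2 Fintype.card_pos
  have hK0 : (0 : ℝ) < Fintype.card (α → Prop) := by linarith
  obtain ⟨η, hη, ht⟩ := til α h (Fin r ⊕ d) (e / Fintype.card (α → Prop)) (by positivity)
  refine ⟨η, hη, fun A C hA hC hn => ?_⟩
  have hβ : e / Fintype.card (α → Prop) ≤ e := div_le_self he.le hK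
  -- words without the new letter are rare
  have n1 : E (fun w : η → Option α => ind (∀ j, w j ≠ none)) ≤ 2 * e := by
    have := ht (fun _ _ => True) (fun w => ind (∀ j, w j ≠ none) - e) (fun _ _ => Iff.rfl)
      (fun w => by linarith [ind_le_one (∀ j, w j ≠ none)]) fun σ hσ => by
        rw [E_sub, E_const, sub_nonpos]
        refine le_trans ?_ hr
        rw [E_sum_idx]
        refine E_mono fun x => E_le fun y => ind_mono fun k j => ?_
        obtain ⟨t, ht⟩ := hσ (Sum.inl j)
        have := k t
        unfold sub at this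
        rwa [ht] at this
    simp only [implies_true, ind_true trivial, mul_one] at this
    rw [E_sub, E_const] at this
    linarith
  -- the atoms
  have n2 : ∀ T : α → Prop,
      E (fun w => (ind (A w) - D) * ind (∀ a, C a w ↔ T a)) ≤ e / Fintype.card (α → Prop) := by
    intro T
    refine ht (fun a w => C a w ↔ T a) (fun w => ind (A w) - D)
      (fun a w => iff_congr (hC a w) Iff.rfl) (fun w => by linarith [ind_le_one (A w)])
      fun σ hσ => ?_
    rw [E_sub, E_const, sub_nonpos, E_sum_idx]
    exact E_le fun x => hd _ (fibre_free (A := fun x => A (sub σ x)) (fun k => hA (hσ.hasLine k)) x)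
  have n3 : E (fun w => (ind (A w) - D) * ind (¬∀ a, C a w)) ≤ e := by
    have e1 : (fun w => (ind (A w) - D) * ind (¬∀ a, C a w)) = fun w =>
        ∑ T ∈ univ.filter (fun T : α → Prop => ¬∀ a, T a),
          (ind (A w) - D) * ind (∀ a, C a w ↔ T a) := by
      funext w
      rw [← mul_sum]
      congr 1
      have hne : ∀ T : α → Prop, T ≠ (fun a => C a w) → ind (∀ a, C a w ↔ T a) = 0 :=
        fun T hT => ind_false fun k => hT (funext fun a => propext (k a).symm)
      by_cases k : ∀ a, C a w
      · rw [ind_false (not_not.2 k)]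
        refine (sum_eq_zero fun T hT => hne T ?_).symm
        rintro rfl
        exact (mem_filter.1 hT).2 k
      · rw [ind_true k, sum_eq_single_of_mem (fun a => C a w) (mem_filter.2 ⟨mem_univ _, k⟩)
          fun T _ hT => hne T hT, ind_true fun a => Iff.rfl]
    rw [e1, E_sum]
    refine (sum_le_card_nsmul _ _ _ fun T _ => n2 T).trans ?_
    rw [nsmul_eq_mul]
    calc _ ≤ (Fintype.card (α → Prop) : ℝ) * (e / Fintype.card (α → Prop)) :=
          mul_le_mul_of_nonneg_right (Nat.cast_le.2 (card_le_univ _)) (by positivity)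
      _ = e := mul_div_cancel₀ _ hK0.ne'
  have n4 : dens A ≤ E fun w => ((ind (A w) - D) * ind (¬∀ a, C a w) +
      D * (1 - ind (∀ a, C a w))) + ind (∀ j, w j ≠ none) := by
    refine E_mono fun w => ?_
    by_cases k : ∀ a, C a w
    · rw [ind_false (not_not.2 k), ind_true k]
      have := ind_mono fun k' : A w => hn w k' k
      linarith
    · rw [ind_true k, ind_false k]
      linarith [ind_nonneg (∀ j, w j ≠ none)]
  rw [E_add, E_add, E_mul_left, E_sub, E_const] at n4
  unfold dens at n4 ⊢
  linarith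

/-- fill the empty cells of row `c` with `ψ c` -/
def word {ι η α : Type} (x : ι → η → Option α) (ψ : ι → Option α) : ι × η → Option α :=
  fun p => (x p.1 p.2).or (ψ p.1)

theorem word_pt {ι η α : Type} (x : ι → η → Option α) (ψ : ι → Option α) (a : α) :
    word x (fun c => some (pt ψ a c)) = fun p => some (pt (word x ψ) a p) := by
  funext p
  simp only [word, pt]
  cases x p.1 p.2 <;> rfl

theorem line_of {G ρ α : Type} {A : (G ⊕ ρ → Option α) → Prop} (u : G → Option α)
    (y : ρ → Option α) (h0 : A (Sum.elim u y))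
    (h1 : ∀ a, A (Sum.elim (fun p => some (pt u a p)) y)) {g : G} (hg : u g = none) :
    HasLine A := by
  refine ⟨Sum.elim (fun p => (u p).map some) fun r => some (y r),
    ⟨Sum.inl g, by simp [hg]⟩, fun a => ?_⟩
  cases a with
  | none =>
    convert h0 using 1
    funext t
    rcases t with p | r
    · simp only [pt, Sum.elim_inl]
      cases u p <;> rfl
    · rfl
  | some a =>
    convert h1 a using 1
    funext t
    rcases t with p | r
    · simp only [pt, Sum.elim_inl]
      cases u p <;> rfl
    · rfl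

end Stp

open Stp in
theorem stp : TILStmt → STPStmt := by
  classical
  intro til α _ _ h δ hδ
  by_contra hcon
  let S : Set ℝ := {d | ∀ (ι : Type) [Finite ι],
    ∃ A : (ι → Option α) → Prop, ¬HasLine A ∧ d ≤ dens A}
  have hS : δ ∈ S := by
    intro ι _
    by_contra k
    exact hcon ⟨ι, inferInstance, fun A hA => by_contra fun k' => k ⟨A, k', hA⟩⟩
  have hb : ∀ d ∈ S, d ≤ 1 := fun d hd => by
    obtain ⟨A, -, hA⟩ := hd Unit
    exact hA.trans (dens_le_one A)
  have hbd : BddAbove S := ⟨1, hb⟩
  obtain ⟨Δ, hΔ⟩ : ∃ Δ, Δ = sSup S := ⟨_, rfl⟩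
  have hΔ0 : 0 < Δ := hδ.trans_le (hΔ ▸ le_csSup hbd hS)
  have hΔ1 : Δ ≤ 1 := hΔ ▸ csSup_le ⟨δ, hS⟩ hb
  have L : ∀ e : ℝ, 0 < e → ∀ (ι : Type) [Finite ι],
      ∃ A : (ι → Option α) → Prop, ¬HasLine A ∧ Δ - e ≤ dens A := by
    intro e he ι _
    obtain ⟨d, hd, hd'⟩ := exists_lt_of_lt_csSup ⟨δ, hS⟩ (show Δ - e < sSup S by linarith)
    obtain ⟨A, hA, hA'⟩ := hd ι
    exact ⟨A, hA, hd'.le.trans hA'⟩
  have U : ∀ e : ℝ, 0 < e → ∃ (η : Type) (_ : Finite η),
      ∀ A : (η → Option α) → Prop, ¬HasLine A → dens A ≤ Δ + e := by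
    intro e he
    by_contra k
    have : Δ + e ∈ S := by
      intro ι _
      by_contra k'
      exact k ⟨ι, inferInstance, fun A hA => le_of_not_ge fun k'' => k' ⟨A, hA, k''⟩⟩
    have := le_csSup hbd this
    linarith
  obtain ⟨i0, _, h0⟩ := h (Δ / 4) (by positivity)
  have hN : (1 : ℝ) ≤ Nat.card (i0 → Option α) := Nat.one_le_cast.2 Nat.card_pos
  obtain ⟨θ, hθ⟩ : ∃ θ : ℝ, θ = Δ / 4 / Nat.card (i0 → Option α) := ⟨_, rfl⟩
  have hθ0 : 0 < θ := by rw [hθ]; positivity
  have hθ1 : θ ≤ 1 := by
    rw [hθ]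
    exact (div_le_self (by positivity) hN).trans (by linarith)
  obtain ⟨e, he⟩ : ∃ e : ℝ, e = θ * Δ / 6 := ⟨_, rfl⟩
  have he0 : 0 < e := by rw [he]; positivity
  have he1 : e ≤ Δ / 2 := by rw [he]; nlinarith
  obtain ⟨d, _, hd⟩ := U e he0
  obtain ⟨η, _, hη⟩ := key til h (D := Δ + e) (by linarith) he0 d hd
  have hM : (0 : ℝ) < Nat.card (i0 × η → Option α) := Nat.cast_pos.2 Nat.card_pos
  obtain ⟨e2, he2⟩ : ∃ e2 : ℝ, e2 = e / 2 / Nat.card (i0 × η → Option α) := ⟨_, rfl⟩
  have he20 : 0 < e2 := by rw [he2]; positivity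
  obtain ⟨ρ, _, hρ⟩ := U e2 he20
  obtain ⟨A, hA, hA'⟩ := L e2 he20 ((i0 × η) ⊕ ρ)
  -- every fibre is dense
  have F : ∀ u : i0 × η → Option α, Δ - e ≤ E fun y => ind (A (Sum.elim u y)) := by
    intro u
    have k := le_card_mul_E (f := fun u : i0 × η → Option α =>
      Δ + e2 - E fun y => ind (A (Sum.elim u y)))
      (fun u => sub_nonneg.2 (hρ _ (fibre_free hA u))) u
    rw [E_sub, E_const] at k
    unfold dens at hA'
    rw [E_sum_idx] at hA'
    have k2 : (Nat.card (i0 × η → Option α) : ℝ) * (2 * e2) = e := by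
      rw [he2]; field_simp
    have k3 := mul_le_mul_of_nonneg_left (show Δ + e2 - (E fun u : i0 × η → Option α =>
      E fun y => ind (A (Sum.elim u y))) ≤ 2 * e2 by linarith) hM.le
    linarith
  -- a popular line in the rows
  let B : (i0 → Option α) → (i0 → η → Option α) × (ρ → Option α) → Prop := fun ψ p =>
    (∃ c, ψ c = none) ∧ ∀ a, A (Sum.elim (fun g => some (pt (word p.1 ψ) a g)) p.2)
  obtain ⟨ψ, hψ⟩ := pigeon (A := fun p => ∃ ψ, B ψ p) (B := B) fun _ k => k
  have hB : Δ / 4 ≤ dens fun p => ∃ ψ, B ψ p := by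
    unfold dens
    rw [E_prod]
    refine le_E fun x => ?_
    have k := markov (f := fun y : ρ → Option α => E fun z : i0 → α =>
      ind (A (Sum.elim (word x fun c => some (z c)) y))) (δ := Δ / 2) (by positivity)
      (fun y => E_le fun _ => ind_le_one _) (by
        rw [E_comm]
        exact le_E fun z => le_trans (by linarith) (F _))
    refine le_trans (by linarith) (k.trans (E_mono fun y => ind_mono fun k' => ?_))
    obtain ⟨ψ, h1, h2⟩ := h0 (fun z => A (Sum.elim (word x fun c => some (z c)) y))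
      (le_trans (by linarith) k')
    refine ⟨ψ, h1, fun a => ?_⟩
    have : A (Sum.elim (word x fun c => some (pt ψ a c)) y) := h2 a
    rwa [word_pt] at this
  have hψ' : θ ≤ dens (B ψ) :=
    le_trans (by rw [hθ]; exact div_le_div_of_nonneg_right hB (by linarith)) hψ
  obtain ⟨c, hc⟩ : ∃ c, ψ c = none := by
    obtain ⟨p, hp⟩ := exists_ge (f := fun p => ind (B ψ p)) hψ'
    by_contra k
    rw [ind_false fun k' : B ψ p => k k'.1] at hp
    linarith
  have hC : θ ≤ E fun x : i0 → η → Option α => E fun y : ρ → Option α =>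
      ind (∀ a, A (Sum.elim (fun g => some (pt (word x ψ) a g)) y)) := by
    refine hψ'.trans ?_
    unfold dens
    rw [E_prod]
    exact E_mono fun x => E_mono fun y => ind_mono fun k => k.2
  have hA2 : Δ - e ≤ E fun x : i0 → η → Option α => E fun y : ρ → Option α =>
      ind (A (Sum.elim (word x ψ) y)) := le_E fun x => F _
  rw [resample c] at hC hA2
  have wc : ∀ (x : i0 → η → Option α) (w : η → Option α) (j : η),
      word (Function.update x c w) ψ (c, j) = w j := by
    intro x w j
    simp only [word, Function.update_self, hc, Option.or_none]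
  have wn : ∀ (x : i0 → η → Option α) (w : η → Option α) (g : i0 × η), g.1 ≠ c →
      word (Function.update x c w) ψ g = word x ψ g := by
    intro x w g hg
    simp only [word, Function.update_of_ne hg]
  have main : ∀ (x : i0 → η → Option α) (y : ρ → Option α),
      (E fun w => ind (A (Sum.elim (word (Function.update x c w) ψ) y))) ≤
        (Δ + e) * (1 - E fun w => ind (∀ a, A (Sum.elim
          (fun g => some (pt (word (Function.update x c w) ψ) a g)) y))) + 3 * e := by
    intro x y
    refine hη (fun w => A (Sum.elim (word (Function.update x c w) ψ) y))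
      (fun a w => A (Sum.elim (fun g => some (pt (word (Function.update x c w) ψ) a g)) y))
      (fun hl => hA ?_) (fun a w => iff_of_eq (congrArg A ?_))
      fun w k1 k2 j hj => hA (line_of _ y k1 k2 ((wc x w j).trans hj))
    · have hp : Proper (Sum.elim (fun g => if g.1 = c then Sum.inr g.2 else Sum.inl (word x ψ g))
          (fun r => Sum.inl (y r)) : (i0 × η) ⊕ ρ → Option α ⊕ η) :=
        fun j => ⟨Sum.inl (c, j), if_pos rfl⟩
      refine hp.hasLine ?_
      convert hl using 3 with w
      funext t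
      rcases t with ⟨c', j⟩ | r
      · by_cases k : c' = c
        · subst k
          simp only [sub, Sum.elim_inl, if_true, Sum.elim_inr, wc]
        · simp only [sub, Sum.elim_inl, if_neg k, id, wn x w (c', j) k]
      · rfl
    · congr 1
      funext ⟨c', j⟩
      by_cases k : c' = c
      · subst k
        simp only [pt, wc, Option.getD_some]
      · simp only [pt, wn x _ (c', j) k]
  have fin := E_mono fun x => E_mono fun y => main x y
  simp only [E_add, E_mul_left, E_sub, E_const] at fin
  simp only [E_comm (Ω := η → Option α) (Ω' := ρ → Option α)] at hC hA2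
  have k := mul_le_mul_of_nonneg_left (sub_le_sub_left hC 1) (show 0 ≤ Δ + e by linarith)
  have k2 : 0 < θ * e := by positivity
  have k3 : 0 < θ * Δ := by positivity
  nlinarith

end Pool.Agent.MP_a43263_nt.DH
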