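import Pool.Agent.MP_a43263_nt.DH.Spec
import Mathlib.Algebra.Order.Floor.Semiring
import Mathlib.Algebra.BigOperators.Ring.Finset
import Mathlib.Tactic.Ring
import Mathlib.Data.Set.Finite.Lattice

/-! The counting form of the theorem of Szemeredi from the density Hales-Jewett theorem. -/

set_option autoImplicit false

noncomputable section

namespace Pool.Agent.MP_a43263_nt.DH

open Finset

namespace Sz

theorem dens_eq {Ω : Type} [Fintype Ω] (A : Ω → Prop) [DecidablePred A] :
    dens A = ((univ.filter A).card : ℝ) / Fintype.card Ω := by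
  unfold dens
  rw [E_eq_div, Nat.card_eq_fintype_card, ← sum_boole]
  refine congrArg (· / (Fintype.card Ω : ℝ)) (sum_congr rfl fun x _ => ?_)
  by_cases k : A x
  · rw [ind_true k, if_pos k]
  · rw [ind_false k, if_neg k]

open Classical in
theorem shift (N s : ℕ) (A : ℕ → Prop) :
    ((range N).filter A).card ≤
      (univ.filter fun X : Fin N => A (X + s) ∧ X + s < N).card + s := by
  have h : (range N).filter A ⊆
      (univ.filter fun X : Fin N => A (X + s) ∧ X + s < N).image (fun X : Fin N => (X : ℕ) + s) ∪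
        range s := by
    intro n hn
    rw [mem_filter, mem_range] at hn
    by_cases k : n < s
    · exact mem_union_right _ (mem_range.2 k)
    · refine mem_union_left _ (mem_image.2 ⟨⟨n - s, by omega⟩, ?_, by simp only; omega⟩)
      have e : n - s + s = n := by omega
      simp only [mem_filter, mem_univ, true_and, e]
      exact ⟨hn.2, hn.1⟩
  refine (card_le_card h).trans ((card_union_le _ _).trans ?_)
  rw [card_range]
  exact Nat.add_le_add_right card_image_le _

open Classical in
theorem dens_shift {N : ℕ} (hN : 0 < N) (s : ℕ) (A : ℕ → Prop) {δ : ℝ}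
    (hA : δ * N ≤ (((range N).filter A).card : ℝ)) (hs : (s : ℝ) ≤ δ * N / 2) :
    δ / 2 ≤ dens fun X : Fin N => A (X + s) ∧ X + s < N := by
  have h0 : (0 : ℝ) < N := Nat.cast_pos.2 hN
  have h : (((range N).filter A).card : ℝ) ≤
      ((univ.filter fun X : Fin N => A (X + s) ∧ X + s < N).card : ℝ) + s := by
    exact_mod_cast shift N s A
  rw [dens_eq, Fintype.card_fin, le_div_iff₀ h0]
  linarith

variable {α ι : Type} [Fintype ι]

/-- the shift attached to a word -/
def sh (e : α → ℕ) {L : ℕ} (l : ι → Fin L) (x : ι → α) : ℕ := ∑ t, e (x t) * (l t + 1)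

/-- the constant part of the shift along a line -/
def cst (e : α → ℕ) {L : ℕ} (l : ι → Fin L) (w : ι → Option α) : ℕ :=
  ∑ t, (w t).elim 0 e * (l t + 1)

/-- the step of the progression along a line -/
def gap {L : ℕ} (l : ι → Fin L) (w : ι → Option α) : ℕ :=
  ∑ t, (w t).elim 1 (fun _ => 0) * (l t + 1)

theorem sh_pt (e : α → ℕ) {L : ℕ} (l : ι → Fin L) (w : ι → Option α) (a : α) :
    sh e l (pt w a) = cst e l w + e a * gap l w := by
  unfold sh cst gap
  rw [mul_sum, ← sum_add_distrib]
  refine sum_congr rfl fun t _ => ?_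
  unfold pt
  cases w t <;> simp

theorem sh_le (e : α → ℕ) {M : ℕ} (hM : ∀ a, e a ≤ M) {L : ℕ} (l : ι → Fin L) (x : ι → α) :
    sh e l x ≤ Fintype.card ι * (M * L) := by
  unfold sh
  rw [← smul_eq_mul, ← card_univ]
  exact sum_le_card_nsmul _ _ _ fun t _ => Nat.mul_le_mul (hM _) (l t).2

theorem gap_le {L : ℕ} (l : ι → Fin L) (w : ι → Option α) : gap l w ≤ Fintype.card ι * L := by
  unfold gap
  rw [← smul_eq_mul, ← card_univ]
  refine sum_le_card_nsmul _ _ _ fun t _ => ?_
  have := (l t).2
  cases w t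
  · simp only [Option.elim, one_mul]; omega
  · simp only [Option.elim, zero_mul]; omega

theorem gap_split [DecidableEq ι] {L : ℕ} (l : ι → Fin L) {w : ι → Option α} {t₀ : ι}
    (h : w t₀ = none) :
    gap l w = (l t₀ : ℕ) + 1 +
      ∑ t ∈ univ.erase t₀, (w t).elim 1 (fun _ => 0) * ((l t : ℕ) + 1) := by
  unfold gap
  rw [← add_sum_erase _ _ (mem_univ t₀), h, Option.elim_none, one_mul]

open Classical in
/-- the count of progressions from the count of good parameters -/
theorem count (e : α → ℕ) {N L : ℕ} (hL : Fintype.card ι * L ≤ N) (A : ℕ → Prop) (a₀ : α)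
    {w : ι → Option α} {t₀ : ι} (h : w t₀ = none) (B : Finset (Fin N × (ι → Fin L)))
    (hB : ∀ ω ∈ B, ∀ a, A (ω.1 + sh e ω.2 (pt w a)) ∧ ω.1 + sh e ω.2 (pt w a) < N) :
    B.card * L ≤ ((range N ×ˢ Icc 1 N).filter fun x => ∀ a, A (x.1 + e a * x.2)).card *
      Fintype.card (ι → Fin L) := by
  have hc : (B ×ˢ (univ : Finset (Fin L))).card ≤
      (((range N ×ˢ Icc 1 N).filter fun x => ∀ a, A (x.1 + e a * x.2)) ×ˢ
        (univ : Finset (ι → Fin L))).card := by
    refine card_le_card_of_injOn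
      (fun p => (((p.1.1 : ℕ) + cst e p.1.2 w, gap p.1.2 w), Function.update p.1.2 t₀ p.2)) ?_ ?_
    · rintro ⟨ω, j⟩ hp
      have hω : ω ∈ B := (mem_product.1 (mem_coe.1 hp)).1
      refine mem_coe.2 (mem_product.2 ⟨mem_filter.2 ⟨mem_product.2 ⟨?_, ?_⟩, fun a => ?_⟩,
        mem_univ _⟩)
      · have := (hB ω hω a₀).2
        rw [sh_pt] at this
        simp only [mem_range]
        omega
      · have h1 := gap_split ω.2 h
        have h2 := gap_le ω.2 w
        simp only [mem_Icc]
        omega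
      · have := (hB ω hω a).1
        rw [sh_pt, ← add_assoc] at this
        exact this
    · rintro ⟨⟨X, l⟩, j⟩ - ⟨⟨X', l'⟩, j'⟩ - hp
      simp only [Prod.mk.injEq] at hp
      obtain ⟨⟨h1, h2⟩, h3⟩ := hp
      have hj : j = j' := by
        have := congrFun h3 t₀
        simpa only [Function.update_self] using this
      have ho : ∀ t, t ≠ t₀ → l t = l' t := fun t ht => by
        have := congrFun h3 t
        simpa only [Function.update_of_ne ht] using this
      have hs : ∑ t ∈ univ.erase t₀, (w t).elim 1 (fun _ => 0) * ((l t : ℕ) + 1) =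
          ∑ t ∈ univ.erase t₀, (w t).elim 1 (fun _ => 0) * ((l' t : ℕ) + 1) :=
        sum_congr rfl fun t ht => by rw [ho t (ne_of_mem_erase ht)]
      rw [gap_split l h, gap_split l' h, hs] at h2
      have hl : l = l' := by
        funext t
        by_cases k : t = t₀
        · subst k
          exact Fin.ext (by omega)
        · exact ho t k
      subst hl hj
      have hX : X = X' := Fin.ext (by omega)
      rw [hX]
  rwa [card_product, card_product, card_univ, card_univ, Fintype.card_fin] at hc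

end Sz

open Sz in
theorem sz : ALLStmt → SZStmt := by
  classical
  intro all α _ e δ hδ
  rcases isEmpty_or_nonempty α with hα | ⟨⟨a₀⟩⟩
  · refine ⟨1, one_pos, 0, fun N _ A _ => ?_⟩
    rw [filter_true_of_mem fun x _ a => hα.elim a, card_product, card_range, Nat.card_Icc]
    simp [sq]
  obtain ⟨ι, hι, H⟩ := all α (δ / 2 / 2) (by positivity)
  cases nonempty_fintype ι
  obtain ⟨M, hM⟩ := (Set.finite_range e).bddAbove
  replace hM : ∀ a, e a ≤ M := fun a => hM ⟨a, rfl⟩
  set K : ℕ := Fintype.card ι * (M + 1) + 1 with hK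
  have hK0 : (0 : ℝ) < K := by positivity
  have hW : (0 : ℝ) < Nat.card (ι → Option α) := Nat.cast_pos.2 Nat.card_pos
  set θ : ℝ := δ / 2 / 2 / Nat.card (ι → Option α) with hθ
  have hθ0 : 0 < θ := by positivity
  refine ⟨θ * (δ / (4 * K)), by positivity, ⌈4 * K / δ⌉₊, fun N hN A hA => ?_⟩
  have hN1 : 4 * K ≤ δ * N := by
    have := Nat.ceil_le.1 hN
    rwa [div_le_iff₀ hδ, mul_comm (N : ℝ)] at this
  have hN0 : (0 : ℝ) < N := by
    by_contra k
    have : (N : ℝ) = 0 := le_antisymm (not_lt.1 k) (Nat.cast_nonneg _)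
    rw [this] at hN1
    linarith
  have hN0' : 0 < N := Nat.cast_pos.1 hN0
  have hδN : δ * N ≤ N := by
    refine hA.trans ?_
    have := card_filter_le (range N) A
    rw [card_range] at this
    exact_mod_cast this
  set L : ℕ := ⌊δ * N / (2 * K)⌋₊ with hL
  have hL1 : (L : ℝ) ≤ δ * N / (2 * K) := Nat.floor_le (by positivity)
  have hL2 : δ * N / (4 * K) ≤ L := by
    have h1 : δ * N / (2 * K) < L + 1 := Nat.lt_floor_add_one _
    have h2 : 1 ≤ δ * N / (4 * K) := by rw [le_div_iff₀ (by positivity)]; linarith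
    have h3 : δ * N / (2 * K) = 2 * (δ * N / (4 * K)) := by field_simp; ring
    linarith
  have hL0 : 0 < L := by
    have : (0 : ℝ) < L := lt_of_lt_of_le (by positivity) hL2
    exact_mod_cast this
  have hKL : (K : ℝ) * L ≤ δ * N / 2 := by
    rw [le_div_iff₀ (by positivity)] at hL1
    linarith
  have hcL : Fintype.card ι * L ≤ N := by
    have h1 : Fintype.card ι * L ≤ K * L := Nat.mul_le_mul_right _ (by rw [hK]; nlinarith)
    have h2 : ((K * L : ℕ) : ℝ) ≤ N := by push_cast; linarith
    exact h1.trans (by exact_mod_cast h2)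
  have : Nonempty (Fin N) := ⟨⟨0, hN0'⟩⟩
  have : Nonempty (Fin L) := ⟨⟨0, hL0⟩⟩
  have : Nonempty α := ⟨a₀⟩
  let P : Fin N × (ι → Fin L) → (ι → α) → Prop := fun ω x =>
    A (ω.1 + sh e ω.2 x) ∧ ω.1 + sh e ω.2 x < N
  have h1 : δ / 2 ≤ E fun ω => dens (P ω) := by
    unfold dens
    rw [E_comm]
    refine le_E fun x => ?_
    rw [E_prod, E_comm]
    refine le_E fun l => dens_shift hN0' (sh e l x) A hA ?_
    have h1 : sh e l x ≤ K * L := (sh_le e hM l x).trans (by rw [hK]; nlinarith)
    have h2 : ((sh e l x : ℕ) : ℝ) ≤ K * L := by exact_mod_cast h1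
    linarith
  have h2 := markov (by positivity) (fun ω => E_le fun x => ind_le_one (P ω x)) h1
  obtain ⟨w, hw⟩ := pigeon (κ := ι → Option α)
    (B := fun w ω => (∃ t, w t = none) ∧ ∀ a, P ω (pt w a)) (fun ω hω => H (P ω) hω)
  have h3 : θ ≤ dens fun ω => (∃ t, w t = none) ∧ ∀ a, P ω (pt w a) :=
    (div_le_div_of_nonneg_right h2 hW.le).trans hw
  rw [dens_eq, Fintype.card_prod, Fintype.card_fin] at h3
  have hC : (0 : ℝ) < Fintype.card (ι → Fin L) := Nat.cast_pos.2 Fintype.card_pos
  push_cast at h3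
  rw [le_div_iff₀ (by positivity)] at h3
  obtain ⟨ω₀, hω₀⟩ := card_pos.1 (Nat.cast_pos.1 (lt_of_lt_of_le (by positivity) h3))
  obtain ⟨t₀, ht₀⟩ := (mem_filter.1 hω₀).2.1
  have h4 := count e hcL A a₀ ht₀ _ fun ω hω => (mem_filter.1 (hω : ω ∈ univ.filter
    fun ω => (∃ t, w t = none) ∧ ∀ a, P ω (pt w a))).2.2
  have h5 := (Nat.cast_le (α := ℝ)).2 h4
  push_cast at h5
  refine le_of_mul_le_mul_right ?_ hC
  refine le_trans ?_ (le_trans (mul_le_mul h3 hL2 (by positivity) (Nat.cast_nonneg _)) ?_)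
  · apply le_of_eq
    ring
  · convert h5

end Pool.Agent.MP_a43263_nt.DH
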