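import Pool.Agent.MP_a43263_nt.DH.Md
import Mathlib.Tactic.Ring

/-! Tiling of intersections of insensitive sets, and the induction on the alphabet. -/

set_option autoImplicit false

noncomputable section

namespace Pool.Agent.MP_a43263_nt.DH

open Finset
open scoped BigOperators

namespace TilAux

theorem ind_and (p q : Prop) : ind (p ∧ q) = ind p * ind q := by
  by_cases hp : p
  · by_cases hq : q
    · rw [ind_true hp, ind_true hq, ind_true ⟨hp, hq⟩, mul_one]
    · rw [ind_false hq, ind_false fun k => hq k.2, mul_zero]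
  · rw [ind_false hp, ind_false fun k => hp k.1, zero_mul]

theorem mul_ind_le_one {r : ℝ} (h : r ≤ 1) (p : Prop) : r * ind p ≤ 1 := by
  by_cases hp : p
  · rw [ind_true hp, mul_one]; exact h
  · rw [ind_false hp, mul_zero]; exact zero_le_one

theorem main (h1 : TIL1Stmt) (α : Type) [Finite α] [Nonempty α] (hα : DHJ α) (β : ℝ)
    (hβ : 0 < β) (s : List α) : ∀ (η : Type) [Finite η], ∃ (ι : Type) (_ : Finite ι),
    ∀ (D : α → (ι → Option α) → Prop) (f : (ι → Option α) → ℝ), (∀ a, Ins a (D a)) →
      (∀ x, f x ≤ 1) →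
      (∀ σ : ι → Option α ⊕ η, Proper σ → E (fun x => f (sub σ x)) ≤ 0) →
      E (fun x => f x * ind (∀ a ∈ s, D a x)) ≤ s.length * β := by
  induction s with
  | nil =>
    intro η _
    refine ⟨η, inferInstance, fun D f _ _ h => ?_⟩
    have k := h Sum.inr fun e => ⟨e, rfl⟩
    rw [List.length_nil, Nat.cast_zero, zero_mul]
    refine (E_mono fun x => ?_).trans k
    rw [ind_true fun a ha => absurd ha List.not_mem_nil, mul_one]
    exact le_rfl
  | cons a s ih =>
    intro η _
    obtain ⟨η₁, _, t1⟩ := h1 α hα η β hβ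
    obtain ⟨ι, _, t2⟩ := ih η₁
    refine ⟨ι, inferInstance, fun D f hD hf h => ?_⟩
    have k := t2 D (fun x => f x * ind (D a x) - β) hD
      (fun x => by linarith [mul_ind_le_one (hf x) (D a x)])
      (fun σ hσ => by
        rw [E_sub, E_const, sub_nonpos]
        refine t1 a _ (fun x => f (sub σ x)) ((hD a).sub σ) (fun x => hf _) fun τ hτ => ?_
        have := h _ (hσ.comp hτ)
        simp only [sub_comp] at this
        exact this)
    have k2 : E (fun x => f x * ind (∀ b ∈ a :: s, D b x)) ≤
        E fun x => (f x * ind (D a x) - β) * ind (∀ b ∈ s, D b x) + β := E_mono fun x => by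
      rw [List.forall_mem_cons, ind_and]
      nlinarith [ind_le_one (∀ b ∈ s, D b x)]
    rw [E_add, E_const] at k2
    rw [List.length_cons, Nat.cast_add, Nat.cast_one]
    linarith

theorem of_equiv {α α' : Type} [Finite α] [Finite α'] (e : α ≃ α') (h : DHJ α) : DHJ α' := by
  intro δ hδ
  obtain ⟨ι, _, h⟩ := h δ hδ
  refine ⟨ι, inferInstance, fun A hA => ?_⟩
  have k : dens (fun x : ι → α => A fun t => e (x t)) = dens A :=
    E_equiv (Equiv.piCongrRight fun _ => e) fun y => ind (A y)
  obtain ⟨w, ⟨t, ht⟩, hw⟩ := h _ (hA.trans_eq k.symm)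
  refine ⟨fun s => (w s).map e, ⟨t, by simp only [ht]; rfl⟩, fun a => ?_⟩
  refine (congrArg A ?_).mp (hw (e.symm a))
  funext s
  simp only [pt]
  cases w s with
  | none => exact e.apply_symm_apply a
  | some b => rfl

end TilAux

theorem til : TIL1Stmt → TILStmt := by
  intro h1 α _ _ hα η _ β hβ
  cases nonempty_fintype α
  have p : (0 : ℝ) < ((univ : Finset α).toList.length : ℝ) + 1 := by positivity
  obtain ⟨ι, _, h⟩ := TilAux.main h1 α hα _ (div_pos hβ p) (univ : Finset α).toList η
  refine ⟨ι, inferInstance, fun D f hD hf h0 => ?_⟩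
  have k := h D f hD hf h0
  have e : ∀ x, (∀ a ∈ (univ : Finset α).toList, D a x) = ∀ a, D a x := fun x =>
    propext ⟨fun k a => k a (mem_toList.2 (mem_univ a)), fun k a _ => k a⟩
  simp only [e] at k
  refine k.trans ?_
  rw [← mul_div_assoc, div_le_iff₀ p]
  nlinarith

theorem all : STPStmt → ALLStmt := by
  intro stp α hα
  refine Finite.induction_empty_option (P := fun α => ∀ _ : Finite α, DHJ α) ?_ ?_ ?_ α hα
  · intro α α' e h _
    have : Finite α := Finite.of_equiv _ e.symm
    exact TilAux.of_equiv e (h this)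
  · intro _ δ hδ
    refine ⟨Unit, inferInstance, fun A hA => ?_⟩
    obtain ⟨x, -⟩ := MdAux.exists_of_dens_pos (hδ.trans_le hA)
    exact (x ()).elim
  · intro α _ h _
    rcases isEmpty_or_nonempty α with c | c
    · intro δ hδ
      refine ⟨Unit, inferInstance, fun A hA => ?_⟩
      obtain ⟨x, hx⟩ := MdAux.exists_of_dens_pos (hδ.trans_le hA)
      refine ⟨fun _ => none, ⟨(), rfl⟩, fun a => (congrArg A ?_).mp hx⟩
      funext t
      cases a with
      | some b => exact c.elim b
      | none =>
        cases hx' : x t with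
        | some b => exact c.elim b
        | none => rfl
    · exact stp α (h inferInstance)

end Pool.Agent.MP_a43263_nt.DH
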