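import Pool.Agent.MP_a43263_nt.DH.Spec

/-! Tiling of one insensitive set, in dual form. -/

set_option autoImplicit false

noncomputable section

namespace Pool.Agent.MP_a43263_nt.DH

open Finset
open scoped BigOperators

namespace Til1

theorem E_zero {Ω : Type} [Finite Ω] : E (fun _ : Ω => (0 : ℝ)) = 0 := by
  cases nonempty_fintype Ω
  simp [E_eq_div]

theorem E_range {X Y : Type} [Finite X] [Finite Y] [Nonempty X] {φ : X → Y}
    (hφ : Function.Injective φ) (g : Y → ℝ) :
    E (fun y => g y * ind (∃ x, φ x = y)) =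
      ((Nat.card X : ℝ) / Nat.card Y) * E fun x => g (φ x) := by
  classical
  cases nonempty_fintype X
  cases nonempty_fintype Y
  have h0 : (Nat.card X : ℝ) ≠ 0 := (Nat.cast_pos.2 Nat.card_pos).ne'
  have : ∑ y, g y * ind (∃ x, φ x = y) = ∑ x, g (φ x) := by
    rw [← Finset.sum_image (s := Finset.univ) (g := φ) (f := g) (fun a _ b _ h => hφ h)]
    symm
    refine Finset.sum_subset_zero_on_sdiff (Finset.subset_univ _) (fun y hy => ?_) (fun y hy => ?_)
    · rw [ind_false, mul_zero]
      simpa using hy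
    · rw [ind_true, mul_one]
      simpa using hy
  rw [E_eq_div, E_eq_div, this]
  field_simp

variable {α ι κ : Type} {a : α}

theorem ins_iff {D : (ι → Option α) → Prop} (h : Ins a D) {x y : ι → Option α}
    (e : ∀ t, pt x a t = pt y a t) : D x ↔ D y := by
  rw [h x, h y]
  simp only [e]

theorem ins_left {D : (κ ⊕ ι → Option α) → Prop} (h : Ins a D) (z : ι → Option α) :
    Ins a fun x => D (Sum.elim x z) := fun x =>
  ins_iff h fun t => by cases t <;> simp [pt]

theorem fibre_eq {D : (κ ⊕ ι → Option α) → Prop} (h : Ins a D) (z : ι → Option α) :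
    (fun x => D (Sum.elim x z)) = fun x => D (Sum.elim x fun t => some (pt z a t)) := by
  funext x
  exact propext (ins_iff h fun t => by cases t <;> simp [pt])

theorem claim [Finite α] {η : Type} [Finite η] [Finite κ] {β : ℝ} (hβ : 0 ≤ β)
    (hκ : ∀ (a : α) (D : (κ → Option α) → Prop), Ins a D → β ≤ dens D →
      ∃ σ : κ → Option α ⊕ η, Proper σ ∧ ∀ x, D (sub σ x)) (F : ℕ) :
    ∃ (ι : Type) (_ : Finite ι), ∀ (a : α) (D : (ι → Option α) → Prop)
      (f : (ι → Option α) → ℝ), Ins a D → (∀ x, f x ≤ 1) →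
      (∀ σ : ι → Option α ⊕ η, Proper σ → E (fun x => f (sub σ x)) ≤ 0) →
      E (fun x => f x * ind (D x)) ≤ β * (1 - (1 - 1 / (Nat.card (κ → Option α) : ℝ)) ^ F) +
        (1 - 1 / (Nat.card (κ → Option α) : ℝ)) ^ F * dens D := by
  have hN : (1 : ℝ) ≤ Nat.card (κ → Option α) := by exact_mod_cast Nat.card_pos
  have hM : (1 : ℝ) ≤ Nat.card (η → Option α) := by exact_mod_cast Nat.card_pos
  have hc0 : 0 < 1 / (Nat.card (κ → Option α) : ℝ) := by positivity
  have hc1 : 1 / (Nat.card (κ → Option α) : ℝ) ≤ 1 := by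
    rw [div_le_one (by linarith)]; exact hN
  have hcM : 1 / (Nat.card (κ → Option α) : ℝ) ≤
      (Nat.card (η → Option α) : ℝ) / Nat.card (κ → Option α) :=
    div_le_div_of_nonneg_right hM (by linarith)
  generalize 1 / (Nat.card (κ → Option α) : ℝ) = c at hc0 hc1 hcM ⊢
  induction F with
  | zero =>
    refine ⟨Empty, inferInstance, fun a D f _ h1 _ => ?_⟩
    simp only [pow_zero, sub_self, mul_zero, one_mul, zero_add]
    exact E_mono fun x => mul_le_of_le_one_left (ind_nonneg _) (h1 x)
  | succ F ih =>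
    obtain ⟨ι, hι, ih⟩ := ih
    refine ⟨κ ⊕ ι, inferInstance, fun a D f hD h1 h0 => ?_⟩
    have hch : ∀ B : (κ → Option α) → Prop, ∃ R : (κ → Option α) → Prop, Ins a B →
        (∀ x, R x → B x) ∧ (β ≤ dens B → c ≤ dens R) ∧
        ∀ g : (κ → Option α) → ℝ,
          (∀ σ : κ → Option α ⊕ η, Proper σ → E (fun x => g (sub σ x)) ≤ 0) →
          E (fun x => g x * ind (R x)) ≤ 0 := by
      intro B
      by_cases hB : Ins a B ∧ β ≤ dens B
      · obtain ⟨σ, hσ, hs⟩ := hκ a B hB.1 hB.2
        refine ⟨fun y => ∃ x, sub σ x = y, fun _ => ⟨?_, fun _ => ?_, fun g hg => ?_⟩⟩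
        · rintro _ ⟨x, rfl⟩; exact hs x
        · have := E_range hσ.injective fun _ => (1 : ℝ)
          simp only [one_mul, E_const, mul_one] at this
          exact hcM.trans_eq this.symm
        · rw [E_range hσ.injective]
          exact mul_nonpos_of_nonneg_of_nonpos (hc0.le.trans hcM) (hg σ hσ)
      · refine ⟨fun _ => False, fun hI => ⟨fun _ h => h.elim, fun h => (hB ⟨hI, h⟩).elim,
          fun g _ => ?_⟩⟩
        simp only [ind_false not_false, mul_zero, E_zero, le_refl]
    choose R hR using hch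
    let Dz : (ι → Option α) → (κ → Option α) → Prop := fun z x => D (Sum.elim x z)
    let D' : (κ → Option α) → (ι → Option α) → Prop := fun x z => Dz z x ∧ ¬ R (Dz z) x
    have hz := fun z => hR (Dz z) (ins_left hD z)
    have hsplit : ∀ x z, ind (Dz z x) = ind (D' x z) + ind (R (Dz z) x) := by
      intro x z
      by_cases hr : R (Dz z) x
      · rw [ind_true hr, ind_true ((hz z).1 x hr), ind_false fun h => h.2 hr, zero_add]
      · rw [ind_false hr, add_zero]
        exact congrArg ind (propext ⟨fun h => ⟨h, hr⟩, fun h => h.1⟩)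
    have hI : ∀ x, Ins a (D' x) := fun x z => by
      have : Dz z = Dz fun t => some (pt z a t) := fibre_eq hD z
      simp only [D']
      rw [← this]
    have hA : ∀ x, E (fun z => f (Sum.elim x z) * ind (D' x z)) ≤
        β * (1 - (1 - c) ^ F) + (1 - c) ^ F * dens (D' x) := fun x =>
      ih a (D' x) (fun z => f (Sum.elim x z)) (hI x) (fun _ => h1 _) fun σ hσ => by
        have := h0 (Sum.elim (fun t => Sum.inl (x t)) σ) fun e => by
          obtain ⟨t, ht⟩ := hσ e
          exact ⟨Sum.inr t, ht⟩
        convert this using 4 with u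
        funext t
        cases t <;> rfl
    have hB : ∀ z, E (fun x => f (Sum.elim x z) * ind (R (Dz z) x)) ≤ 0 := fun z =>
      (hz z).2.2 (fun x => f (Sum.elim x z)) fun σ hσ => by
        have := h0 (Sum.elim σ fun t => Sum.inl (z t)) fun e => by
          obtain ⟨t, ht⟩ := hσ e
          exact ⟨Sum.inl t, ht⟩
        convert this using 4 with u
        funext t
        cases t <;> rfl
    have hC : ∀ z, E (fun x => ind (D' x z)) ≤ c * β + (1 - c) * dens (Dz z) := fun z => by
      have e : dens (Dz z) = E (fun x => ind (D' x z)) + dens (R (Dz z)) := by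
        unfold dens
        rw [← E_add]
        exact congrArg E (funext fun x => hsplit x z)
      have l1 : dens (Dz z) ≤ 1 := E_le fun _ => ind_le_one _
      have l0 : 0 ≤ dens (Dz z) := E_nonneg fun _ => ind_nonneg _
      have r0 : 0 ≤ dens (R (Dz z)) := E_nonneg fun _ => ind_nonneg _
      by_cases hb : β ≤ dens (Dz z)
      · have := (hz z).2.1 hb
        nlinarith [mul_le_mul_of_nonneg_left l1 hc0.le, mul_nonneg hc0.le hβ]
      · nlinarith [mul_le_mul_of_nonneg_left (not_le.1 hb).le hc0.le]
    have hq : 0 ≤ (1 - c) ^ F := pow_nonneg (by linarith) _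
    have e1 : E (fun x => f x * ind (D x)) =
        E (fun x => E fun z => f (Sum.elim x z) * ind (D' x z)) +
        E (fun z => E fun x => f (Sum.elim x z) * ind (R (Dz z) x)) := by
      rw [E_sum_idx, E_comm (fun z x => f (Sum.elim x z) * ind (R (Dz z) x)), ← E_add]
      refine congrArg E (funext fun x => ?_)
      rw [← E_add]
      refine congrArg E (funext fun z => ?_)
      rw [← mul_add, ← hsplit]
    have e2 : dens D = E fun z => dens (Dz z) := by
      unfold dens
      rw [E_sum_idx, E_comm]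
    have e3 : E (fun x => dens (D' x)) ≤ c * β + (1 - c) * dens D := by
      have := E_mono hC
      rw [E_add, E_const, E_mul_left, ← e2, E_comm] at this
      exact this
    have e4 := E_mono hA
    rw [E_add, E_const, E_mul_left] at e4
    have e5 := E_le hB
    have e6 := mul_le_mul_of_nonneg_left e3 hq
    rw [e1, pow_succ]
    linarith

end Til1

theorem til1 : INSStmt → TIL1Stmt := by
  intro ins α _ _ hα η _ β hβ
  obtain ⟨κ, _, hκ⟩ := ins α hα η (β / 2) (by positivity)
  have hN : (1 : ℝ) ≤ Nat.card (κ → Option α) := by exact_mod_cast Nat.card_pos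
  have hc0 : 0 < 1 / (Nat.card (κ → Option α) : ℝ) := by positivity
  have hc1 : 1 / (Nat.card (κ → Option α) : ℝ) ≤ 1 := by
    rw [div_le_one (by linarith)]; exact hN
  obtain ⟨F, hF⟩ := exists_pow_lt_of_lt_one (show 0 < β / 2 by positivity)
    (show 1 - 1 / (Nat.card (κ → Option α) : ℝ) < 1 by linarith)
  obtain ⟨ι, _, h⟩ := Til1.claim (by positivity) hκ F
  refine ⟨ι, inferInstance, fun a D f hD h1 h0 => (h a D f hD h1 h0).trans ?_⟩
  have hq : 0 ≤ (1 - 1 / (Nat.card (κ → Option α) : ℝ)) ^ F := pow_nonneg (by linarith) _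
  have l1 : dens D ≤ 1 := E_le fun _ => ind_le_one _
  nlinarith [mul_le_mul_of_nonneg_left l1 hq, mul_nonneg hβ.le hq]

end Pool.Agent.MP_a43263_nt.DH
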